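import Mathlib

/-!
# Elementary estimates for the rational functions `β_k (x, y) = k x² y / (x² + k² y²)`
-/

namespace Pool.Agent.U195.WCP

/-- the odd, positively homogeneous function `β_k` on the plane -/
noncomputable def beta (k x y : ℝ) : ℝ := k * x ^ 2 * y / (x ^ 2 + k ^ 2 * y ^ 2)

/-- its partial derivative in the first variable -/
noncomputable def dbx (k a b : ℝ) : ℝ := 2 * k ^ 3 * a * b ^ 3 / (a ^ 2 + k ^ 2 * b ^ 2) ^ 2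

/-- its partial derivative in the second variable -/
noncomputable def dby (k a b : ℝ) : ℝ :=
  k * a ^ 2 * (a ^ 2 - k ^ 2 * b ^ 2) / (a ^ 2 + k ^ 2 * b ^ 2) ^ 2

theorem Q_ge {k x y : ℝ} (hk : 1 ≤ k) : x ^ 2 + y ^ 2 ≤ x ^ 2 + k ^ 2 * y ^ 2 := by
  nlinarith [sq_nonneg y, mul_nonneg (sub_nonneg.2 hk) (sq_nonneg y),
    mul_nonneg (mul_nonneg (sub_nonneg.2 hk) (by linarith : (0:ℝ) ≤ k)) (sq_nonneg y)]

theorem Q_pos {k a b : ℝ} (hk : 1 ≤ k) (h : a ^ 2 + b ^ 2 = 1) : 1 ≤ a ^ 2 + k ^ 2 * b ^ 2 := by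
  have := Q_ge (x := a) (y := b) hk
  linarith

theorem Q_pos' {k x y : ℝ} (hk : 1 ≤ k) (h : 0 < x ^ 2 + y ^ 2) : 0 < x ^ 2 + k ^ 2 * y ^ 2 :=
  lt_of_lt_of_le h (Q_ge hk)

/-- Euler's identity. -/
theorem euler {k a b : ℝ} (hk : 1 ≤ k) (h : a ^ 2 + b ^ 2 = 1) :
    a * dbx k a b + b * dby k a b = beta k a b := by
  have hQ : a ^ 2 + k ^ 2 * b ^ 2 ≠ 0 := by
    have := Q_pos hk h
    linarith
  unfold dbx dby beta
  field_simp
  ring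

theorem beta_smul (k r a b : ℝ) : beta k (r * a) (r * b) = r * beta k a b := by
  unfold beta
  by_cases hr : r = 0
  · simp [hr]
  · have h1 : (r * a) ^ 2 + k ^ 2 * (r * b) ^ 2 = r ^ 2 * (a ^ 2 + k ^ 2 * b ^ 2) := by ring
    have h2 : k * (r * a) ^ 2 * (r * b) = r ^ 2 * (r * (k * a ^ 2 * b)) := by ring
    rw [h1, h2, mul_div_mul_left _ _ (pow_ne_zero 2 hr), mul_div_assoc]

/-- The remainder identity. -/
theorem remainder {k a b x y : ℝ} (hk : 1 ≤ k) (h : a ^ 2 + b ^ 2 = 1)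
    (hz : 0 < x ^ 2 + y ^ 2) :
    beta k x y - (x * dbx k a b + y * dby k a b) =
      -(k ^ 3 * (x * b - y * a) ^ 2 * (2 * a * b * x + (a ^ 2 - k ^ 2 * b ^ 2) * y)) /
        ((x ^ 2 + k ^ 2 * y ^ 2) * (a ^ 2 + k ^ 2 * b ^ 2) ^ 2) := by
  have hQ : a ^ 2 + k ^ 2 * b ^ 2 ≠ 0 := by
    have := Q_pos hk h
    linarith
  have hQ' : x ^ 2 + k ^ 2 * y ^ 2 ≠ 0 := (Q_pos' hk hz).ne'
  unfold dbx dby beta
  field_simp
  ring

/-- **The key estimate.** -/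
theorem key {k a b x y : ℝ} (hk : 1 ≤ k) (h : a ^ 2 + b ^ 2 = 1) :
    |beta k x y - (x * dbx k a b + y * dby k a b)| ≤
      2 * k ^ 3 * (√(x ^ 2 + y ^ 2) - |x * a + y * b|) := by
  rcases eq_or_lt_of_le (add_nonneg (sq_nonneg x) (sq_nonneg y)) with h0 | hz
  · have hx : x = 0 := by nlinarith [sq_nonneg x, sq_nonneg y]
    have hy : y = 0 := by nlinarith [sq_nonneg x, sq_nonneg y]
    subst hx; subst hy
    simp [beta]
  · rw [remainder hk h hz]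
    set r := √(x ^ 2 + y ^ 2) with hr
    have hr2 : r ^ 2 = x ^ 2 + y ^ 2 := Real.sq_sqrt hz.le
    have hr0 : 0 < r := Real.sqrt_pos.2 hz
    have hQu : 1 ≤ a ^ 2 + k ^ 2 * b ^ 2 := Q_pos hk h
    have hQz : r ^ 2 ≤ x ^ 2 + k ^ 2 * y ^ 2 := by rw [hr2]; exact Q_ge hk
    set c := |x * a + y * b| with hc
    have hc0 : 0 ≤ c := abs_nonneg _
    have hc2 : c ^ 2 = (x * a + y * b) ^ 2 := sq_abs _
    have hcross : (x * b - y * a) ^ 2 = r ^ 2 - c ^ 2 := by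
      rw [hr2, hc2]
      have : x ^ 2 + y ^ 2 = (x ^ 2 + y ^ 2) * (a ^ 2 + b ^ 2) := by rw [h, mul_one]
      rw [this]; ring
    have hcr : c ≤ r := by
      have : c ^ 2 ≤ r ^ 2 := by
        have := sq_nonneg (x * b - y * a)
        linarith
      exact le_of_sq_le_sq this hr0.le
    set q := a ^ 2 + k ^ 2 * b ^ 2 with hq
    set Qz := x ^ 2 + k ^ 2 * y ^ 2 with hQzd
    have hk0 : (0:ℝ) < k := by linarith
    -- the linear factor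
    have hl : |2 * a * b * x + (a ^ 2 - k ^ 2 * b ^ 2) * y| ≤ r * q := by
      have hcs : (2 * a * b * x + (a ^ 2 - k ^ 2 * b ^ 2) * y) ^ 2 ≤ (r * q) ^ 2 := by
        have h1 : (2 * a * b * x + (a ^ 2 - k ^ 2 * b ^ 2) * y) ^ 2 ≤
            ((2 * a * b) ^ 2 + (a ^ 2 - k ^ 2 * b ^ 2) ^ 2) * (x ^ 2 + y ^ 2) := by
          nlinarith [sq_nonneg (2 * a * b * y - (a ^ 2 - k ^ 2 * b ^ 2) * x)]
        have h2 : (2 * a * b) ^ 2 + (a ^ 2 - k ^ 2 * b ^ 2) ^ 2 ≤ q ^ 2 := by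
          have h3 : q ^ 2 = (a ^ 2 - k ^ 2 * b ^ 2) ^ 2 + k ^ 2 * (2 * a * b) ^ 2 := by
            rw [hq]; ring
          rw [h3]
          have h4 : (2 * a * b) ^ 2 ≤ k ^ 2 * (2 * a * b) ^ 2 := by
            have : (1:ℝ) ≤ k ^ 2 := by nlinarith
            nlinarith [sq_nonneg (2 * a * b)]
          linarith
        calc _ ≤ _ := h1
          _ ≤ q ^ 2 * (x ^ 2 + y ^ 2) := mul_le_mul_of_nonneg_right h2 hz.le
          _ = (r * q) ^ 2 := by rw [mul_pow, hr2]; ring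
      have hq0 : 0 < q := by linarith
      exact abs_le_of_sq_le_sq hcs (by positivity)
    have hq0 : 0 < q := by linarith
    have hQz0 : 0 < Qz := lt_of_lt_of_le (by positivity) hQz
    rw [abs_div, abs_neg, abs_mul, abs_mul, abs_of_pos (by positivity : (0:ℝ) < k ^ 3),
      abs_of_nonneg (sq_nonneg (x * b - y * a)),
      abs_of_pos (by positivity : (0:ℝ) < Qz * q ^ 2), div_le_iff₀ (by positivity), hcross]
    have hfac : r ^ 2 - c ^ 2 ≤ 2 * r * (r - c) := by nlinarith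
    have hnn : 0 ≤ r - c := by linarith
    calc k ^ 3 * (r ^ 2 - c ^ 2) * |2 * a * b * x + (a ^ 2 - k ^ 2 * b ^ 2) * y|
        ≤ k ^ 3 * (2 * r * (r - c)) * (r * q) := by
          apply mul_le_mul _ hl (abs_nonneg _) (by positivity)
          exact mul_le_mul_of_nonneg_left hfac (by positivity)
      _ = 2 * k ^ 3 * (r - c) * (r ^ 2 * q) := by ring
      _ ≤ 2 * k ^ 3 * (r - c) * (Qz * q ^ 2) := by
          apply mul_le_mul_of_nonneg_left _ (by positivity)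
          have : q ≤ q ^ 2 := by nlinarith
          exact mul_le_mul hQz this (by positivity) (by positivity)

theorem abs_dbx_le {k a b : ℝ} (hk : 1 ≤ k) (h : a ^ 2 + b ^ 2 = 1) :
    |dbx k a b| ≤ 2 * k ^ 3 := by
  unfold dbx
  have hQu : 1 ≤ a ^ 2 + k ^ 2 * b ^ 2 := Q_pos hk h
  have hk0 : (0:ℝ) < k := by linarith
  have ha : |a| ≤ 1 := by
    rw [abs_le_one_iff_mul_self_le_one]; nlinarith [sq_nonneg b]
  have hb : |b| ≤ 1 := by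
    rw [abs_le_one_iff_mul_self_le_one]; nlinarith [sq_nonneg a]
  rw [abs_div, abs_of_pos (by positivity : (0:ℝ) < (a ^ 2 + k ^ 2 * b ^ 2) ^ 2),
    div_le_iff₀ (by positivity), abs_mul, abs_mul, abs_of_pos (by positivity : (0:ℝ) < 2 * k ^ 3),
    abs_pow]
  have h1 : |b| ^ 3 ≤ 1 := pow_le_one₀ (abs_nonneg _) hb
  have h2 : (1:ℝ) ≤ (a ^ 2 + k ^ 2 * b ^ 2) ^ 2 := one_le_pow₀ hQu
  have h3 : |a| * |b| ^ 3 ≤ 1 := by
    calc |a| * |b| ^ 3 ≤ 1 * 1 := mul_le_mul ha h1 (by positivity) (by norm_num)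
      _ = 1 := by norm_num
  calc 2 * k ^ 3 * |a| * |b| ^ 3 = 2 * k ^ 3 * (|a| * |b| ^ 3) := by ring
    _ ≤ 2 * k ^ 3 * 1 := mul_le_mul_of_nonneg_left h3 (by positivity)
    _ ≤ 2 * k ^ 3 * (a ^ 2 + k ^ 2 * b ^ 2) ^ 2 := mul_le_mul_of_nonneg_left h2 (by positivity)

theorem abs_dby_le {k a b : ℝ} (hk : 1 ≤ k) (h : a ^ 2 + b ^ 2 = 1) :
    |dby k a b| ≤ 2 * k ^ 3 := by
  unfold dby
  have hQu : 1 ≤ a ^ 2 + k ^ 2 * b ^ 2 := Q_pos hk h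
  have hk0 : (0:ℝ) < k := by linarith
  have ha : a ^ 2 ≤ 1 := by nlinarith [sq_nonneg b]
  rw [abs_div, abs_of_pos (by positivity : (0:ℝ) < (a ^ 2 + k ^ 2 * b ^ 2) ^ 2),
    div_le_iff₀ (by positivity), abs_mul, abs_mul, abs_of_pos hk0,
    abs_of_nonneg (sq_nonneg a)]
  have h1 : |a ^ 2 - k ^ 2 * b ^ 2| ≤ a ^ 2 + k ^ 2 * b ^ 2 := by
    rw [abs_le]; constructor <;> nlinarith [sq_nonneg a, sq_nonneg (k * b)]
  have h2 : (a ^ 2 + k ^ 2 * b ^ 2) ≤ (a ^ 2 + k ^ 2 * b ^ 2) ^ 2 := by nlinarith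
  have h3 : k ≤ 2 * k ^ 3 := by nlinarith [mul_nonneg hk0.le hk0.le, mul_nonneg (mul_nonneg hk0.le hk0.le) (sub_nonneg.2 hk), mul_nonneg hk0.le (sub_nonneg.2 hk)]
  calc k * a ^ 2 * |a ^ 2 - k ^ 2 * b ^ 2| ≤ k * 1 * (a ^ 2 + k ^ 2 * b ^ 2) := by
        apply mul_le_mul (mul_le_mul_of_nonneg_left ha hk0.le) h1 (abs_nonneg _) (by positivity)
    _ = k * (a ^ 2 + k ^ 2 * b ^ 2) := by ring
    _ ≤ 2 * k ^ 3 * (a ^ 2 + k ^ 2 * b ^ 2) ^ 2 :=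
        mul_le_mul h3 h2 (by positivity) (by positivity)

/-- Telescoping bound for the squares. -/
theorem beta_sq_le {k x y : ℝ} (hk : 1 ≤ k) :
    (beta k x y) ^ 2 ≤ 4 / 3 * x ^ 2 *
      (x ^ 2 / (x ^ 2 + k ^ 2 * y ^ 2) - x ^ 2 / (x ^ 2 + (2 * k) ^ 2 * y ^ 2)) := by
  rcases eq_or_lt_of_le (add_nonneg (sq_nonneg x) (sq_nonneg y)) with h0 | hz
  · have hx : x = 0 := by nlinarith [sq_nonneg x, sq_nonneg y]
    subst hx
    simp [beta]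
  · have hA : 0 < x ^ 2 + k ^ 2 * y ^ 2 := Q_pos' hk hz
    have hB : 0 < x ^ 2 + (2 * k) ^ 2 * y ^ 2 := Q_pos' (by linarith) hz
    have h1 : x ^ 2 / (x ^ 2 + k ^ 2 * y ^ 2) - x ^ 2 / (x ^ 2 + (2 * k) ^ 2 * y ^ 2) =
        x ^ 2 * (3 * k ^ 2 * y ^ 2) / ((x ^ 2 + k ^ 2 * y ^ 2) * (x ^ 2 + (2 * k) ^ 2 * y ^ 2)) := by
      rw [div_sub_div _ _ hA.ne' hB.ne']
      congr 1; ring
    rw [h1]
    unfold beta
    rw [div_pow, div_le_iff₀ (by positivity)]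
    rw [show 4 / 3 * x ^ 2 * (x ^ 2 * (3 * k ^ 2 * y ^ 2) /
        ((x ^ 2 + k ^ 2 * y ^ 2) * (x ^ 2 + (2 * k) ^ 2 * y ^ 2))) * (x ^ 2 + k ^ 2 * y ^ 2) ^ 2 =
        (4 * x ^ 4 * k ^ 2 * y ^ 2 * (x ^ 2 + k ^ 2 * y ^ 2)) / (x ^ 2 + (2 * k) ^ 2 * y ^ 2) by
      field_simp; try ring]
    rw [le_div_iff₀ hB]
    have h2 : x ^ 2 + (2 * k) ^ 2 * y ^ 2 ≤ 4 * (x ^ 2 + k ^ 2 * y ^ 2) := by
      nlinarith [sq_nonneg x]
    calc (k * x ^ 2 * y) ^ 2 * (x ^ 2 + (2 * k) ^ 2 * y ^ 2)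
        ≤ (k * x ^ 2 * y) ^ 2 * (4 * (x ^ 2 + k ^ 2 * y ^ 2)) :=
          mul_le_mul_of_nonneg_left h2 (sq_nonneg _)
      _ = 4 * x ^ 4 * k ^ 2 * y ^ 2 * (x ^ 2 + k ^ 2 * y ^ 2) := by ring

/-- Each `β_k` is continuous. -/
theorem abs_beta_le {k x y : ℝ} (hk : 1 ≤ k) : |beta k x y| ≤ |x| := by
  unfold beta
  rcases eq_or_lt_of_le (add_nonneg (sq_nonneg x) (sq_nonneg y)) with h0 | hz
  · have hx : x = 0 := by nlinarith [sq_nonneg x, sq_nonneg y]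
    subst hx
    simp
  · have hA : 0 < x ^ 2 + k ^ 2 * y ^ 2 := Q_pos' hk hz
    have hk0 : (0:ℝ) < k := by linarith
    rw [abs_div, abs_of_pos hA, div_le_iff₀ hA, abs_mul, abs_mul, abs_of_pos hk0, abs_pow]
    have h1 : k * |x| * |y| ≤ x ^ 2 + k ^ 2 * y ^ 2 := by
      have := sq_nonneg (|x| - k * |y|)
      have hx2 : |x| ^ 2 = x ^ 2 := sq_abs x
      have hy2 : |y| ^ 2 = y ^ 2 := sq_abs y
      nlinarith [abs_nonneg x, abs_nonneg y, mul_nonneg hk0.le (mul_nonneg (abs_nonneg x) (abs_nonneg y))]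
    calc k * |x| ^ 2 * |y| = |x| * (k * |x| * |y|) := by ring
      _ ≤ |x| * (x ^ 2 + k ^ 2 * y ^ 2) := mul_le_mul_of_nonneg_left h1 (abs_nonneg _)

end Pool.Agent.U195.WCP
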