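import Pool.Agent.U195.WCP.Space

/-!
# The metric projection: weakly continuous, not norm continuous
-/

namespace Pool.Agent.U195.WCP

open scoped ENNReal Topology
open Filter

theorem continuous_beta {k : ℝ} (hk : 1 ≤ k) : Continuous fun p : ℝ × ℝ => beta k p.1 p.2 := by
  rw [continuous_iff_continuousAt]
  rintro ⟨x, y⟩
  rcases eq_or_lt_of_le (add_nonneg (sq_nonneg x) (sq_nonneg y)) with h0 | hz
  · have hx : x = 0 := by nlinarith [sq_nonneg x, sq_nonneg y]
    have hy : y = 0 := by nlinarith [sq_nonneg x, sq_nonneg y]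
    subst hx; subst hy
    have h1 : beta k 0 0 = 0 := by simp [beta]
    unfold ContinuousAt
    simp only [h1]
    apply squeeze_zero_norm (a := fun p : ℝ × ℝ => |p.1|)
    · intro p
      exact abs_beta_le hk
    · have : Continuous fun p : ℝ × ℝ => |p.1| := by fun_prop
      simpa using this.tendsto ((0:ℝ), (0:ℝ))
  · have hA : x ^ 2 + k ^ 2 * y ^ 2 ≠ 0 := (Q_pos' hk hz).ne'
    unfold beta
    exact ContinuousAt.div (by fun_prop) (by fun_prop) hA

/-- `Ψ` is continuous from the plane to `ℓ²` with the weak topology. -/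
theorem continuous_dual_Psi (F : StrongDual ℝ H) :
    Continuous fun p : ℝ × ℝ => F (Psi p.1 p.2) := by
  set w : H := (InnerProductSpace.toDual ℝ H).symm F with hw
  have hF : ∀ h, F h = inner ℝ w h := by
    intro h
    rw [hw, InnerProductSpace.toDual_symm_apply]
  simp only [hF]
  apply continuous_of_locally_uniform_approx_of_continuousAt
  intro p0 u hu
  obtain ⟨ε, hε, hεu⟩ := Metric.mem_uniformity_dist.1 hu
  have hs : HasSum (fun n : ℕ => lp.single 2 n (w n)) w := lp.hasSum_single (by norm_num) w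
  set C : ℝ := 2 * (|p0.1| + 1) with hC
  have hC0 : 0 < C := by positivity
  have hs' := Metric.tendsto_nhds.1 hs (ε / C) (by positivity)
  obtain ⟨s, hs2⟩ := hs'.exists
  set ws : H := ∑ n ∈ s, lp.single 2 n (w n) with hws
  refine ⟨{p : ℝ × ℝ | |p.1| < |p0.1| + 1}, ?_, fun p => inner ℝ ws (Psi p.1 p.2), ?_, ?_⟩
  · have hopen : IsOpen {p : ℝ × ℝ | |p.1| < |p0.1| + 1} :=
      isOpen_lt (by fun_prop) continuous_const
    exact hopen.mem_nhds (by simp)
  · apply Continuous.continuousAt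
    have : ∀ p : ℝ × ℝ, inner ℝ ws (Psi p.1 p.2) =
        ∑ n ∈ s, w n * beta (2 ^ n) p.1 p.2 := by
      intro p
      rw [hws, sum_inner]
      apply Finset.sum_congr rfl
      intro n _
      rw [lp.inner_single_left]
      simp [mul_comm]
    simp only [this]
    apply continuous_finsetSum
    intro n _
    exact continuous_const.mul (continuous_beta (one_le_kn n))
  · intro p hp
    apply hεu
    rw [Real.dist_eq, ← inner_sub_left]
    have h1 := abs_real_inner_le_norm (w - ws) (Psi p.1 p.2)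
    have h2 := norm_Psi_le p.1 p.2
    have h3 : ‖w - ws‖ < ε / C := by
      rw [← dist_eq_norm, dist_comm]; exact hs2
    simp only [Set.mem_ofPred_eq] at hp
    have h4 : 2 * |p.1| < C := by rw [hC]; linarith
    calc |inner ℝ (w - ws) (Psi p.1 p.2)| ≤ ‖w - ws‖ * ‖Psi p.1 p.2‖ := h1
      _ ≤ ‖w - ws‖ * (2 * |p.1|) := mul_le_mul_of_nonneg_left h2 (norm_nonneg _)
      _ ≤ ‖w - ws‖ * C := mul_le_mul_of_nonneg_left h4.le (norm_nonneg _)
      _ < ε / C * C := mul_lt_mul_of_pos_right h3 hC0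
      _ = ε := by field_simp

/-- `E` is linearly homeomorphic to `ℝ × ℝ × ℓ²`. -/
noncomputable def eE : E ≃L[ℝ] ℝ × ℝ × H :=
  LinearEquiv.toContinuousLinearEquivOfBounds (E := E) (F := ℝ × ℝ × H)
    (LinearEquiv.refl ℝ (ℝ × ℝ × H)) 2 5 (fun v => le_norm_T v) (fun v => norm_T_le' v)

theorem eE_apply (v : E) : eE v = v := rfl

instance : CompleteSpace E := (completeSpace_congr (e := eE.toLinearEquiv.toEquiv)
  eE.isUniformEmbedding).2 inferInstance

/-- the Hilbert space `ℝ ⊕₂ (ℝ ⊕₂ ℓ²)` to which `E` is isomorphic -/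
noncomputable def eHilb : E ≃L[ℝ] WithLp 2 (ℝ × WithLp 2 (ℝ × H)) :=
  eE.trans (((ContinuousLinearEquiv.refl ℝ ℝ).prodCongr
    (WithLp.prodContinuousLinearEquiv 2 ℝ ℝ H).symm).trans
    (WithLp.prodContinuousLinearEquiv 2 ℝ ℝ (WithLp 2 (ℝ × H))).symm)

/-- make an element of `E` -/
def mk (x y : ℝ) (h : H) : E := (x, y, h)

/-- first coordinate -/
noncomputable def px : E →L[ℝ] ℝ := (ContinuousLinearMap.fst ℝ ℝ (ℝ × H)).comp eE.toContinuousLinearMap

/-- second coordinate -/
noncomputable def py : E →L[ℝ] ℝ :=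
  ((ContinuousLinearMap.fst ℝ ℝ H).comp (ContinuousLinearMap.snd ℝ ℝ (ℝ × H))).comp
    eE.toContinuousLinearMap

/-- third coordinate -/
noncomputable def ph : E →L[ℝ] H :=
  ((ContinuousLinearMap.snd ℝ ℝ H).comp (ContinuousLinearMap.snd ℝ ℝ (ℝ × H))).comp
    eE.toContinuousLinearMap

/-- the inclusion of `ℓ²` -/
noncomputable def jh : H →L[ℝ] E :=
  eE.symm.toContinuousLinearMap.comp ((ContinuousLinearMap.inr ℝ ℝ (ℝ × H)).comp
    (ContinuousLinearMap.inr ℝ ℝ H))

theorem px_apply (v : E) : px v = v.1 := rfl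
theorem py_apply (v : E) : py v = v.2.1 := rfl
theorem ph_apply (v : E) : ph v = v.2.2 := rfl
theorem jh_apply (h : H) : jh h = mk 0 0 h := rfl

/-- the subspace `G = {0} × {0} × ℓ²`, as the kernel of the coordinates -/
noncomputable def G : Submodule ℝ E := LinearMap.ker (px.prod py).toLinearMap

theorem mem_G {v : E} : v ∈ G ↔ px v = 0 ∧ py v = 0 := by
  simp [G, LinearMap.mem_ker]

theorem isClosed_G : IsClosed (G : Set E) := ContinuousLinearMap.isClosed_ker (px.prod py)

theorem finrank_quot : Module.finrank ℝ (E ⧸ G) = 2 := by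
  have hsurj : Function.Surjective (px.prod py).toLinearMap := by
    rintro ⟨x, y⟩
    exact ⟨mk x y 0, rfl⟩
  have e := (px.prod py).toLinearMap.quotKerEquivOfSurjective hsurj
  have := e.finrank_eq
  unfold G
  rw [this]
  simp

/-- the metric projection -/
noncomputable def proj (v : E) : E := jh (ph v - Psi (px v) (py v))

theorem proj_mem (v : E) : proj v ∈ G := mem_G.2 ⟨rfl, rfl⟩

theorem norm_sub_proj (v : E) : ‖v - proj v‖ = √((px v) ^ 2 + (py v) ^ 2) := by
  have h1 : v - proj v = mk (px v) (py v) (Psi (px v) (py v)) := by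
    have : eE (v - proj v) = eE (mk (px v) (py v) (Psi (px v) (py v))) := by
      show ((v.1 - 0, v.2.1 - 0, v.2.2 - (v.2.2 - Psi (px v) (py v))) : ℝ × ℝ × H) =
        (v.1, v.2.1, Psi (px v) (py v))
      simp
    exact eE.injective this
  rw [h1]
  exact norm_T_graph _ _

theorem le_norm_sub {v g : E} (hg : g ∈ G) : √((px v) ^ 2 + (py v) ^ 2) ≤ ‖v - g‖ := by
  have h := sqrt_le_norm_T (v - g : E)
  have hx : (v - g : E).1 = px v := by
    have : px (v - g) = px v := by rw [map_sub, (mem_G.1 hg).1, sub_zero]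
    exact this
  have hy : (v - g : E).2.1 = py v := by
    have : py (v - g) = py v := by rw [map_sub, (mem_G.1 hg).2, sub_zero]
    exact this
  rw [hx, hy] at h
  exact h

theorem eq_proj_of_norm_le {v g : E} (hg : g ∈ G)
    (h : ‖v - g‖ ≤ √((px v) ^ 2 + (py v) ^ 2)) : g = proj v := by
  have hx : px (v - g) = px v := by rw [map_sub, (mem_G.1 hg).1, sub_zero]
  have hy : py (v - g) = py v := by rw [map_sub, (mem_G.1 hg).2, sub_zero]
  have h1 : ph (v - g) = Psi (px v) (py v) := by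
    apply eq_Psi_of_norm_T_le
    rw [← hx, ← hy] at h ⊢
    exact h
  have h2 : ph g = ph v - Psi (px v) (py v) := by
    rw [map_sub] at h1
    rw [← h1]; abel
  apply eE.injective
  show ((px g, py g, ph g) : ℝ × ℝ × H) = (0, 0, ph v - Psi (px v) (py v))
  rw [(mem_G.1 hg).1, (mem_G.1 hg).2, h2]

theorem iInf_eq (v : E) : ⨅ g : (G : Set E), ‖v - (g : E)‖ = √((px v) ^ 2 + (py v) ^ 2) := by
  have : Nonempty (G : Set E) := ⟨⟨0, G.zero_mem⟩⟩
  apply le_antisymm
  · rw [← norm_sub_proj v]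
    exact ciInf_le ⟨0, by rintro _ ⟨g, rfl⟩; exact norm_nonneg _⟩
      (⟨proj v, proj_mem v⟩ : (G : Set E))
  · exact le_ciInf fun g => le_norm_sub g.2

theorem weak_eval (F : StrongDual ℝ E) :
    Continuous fun x : WeakSpace ℝ E => F ((toWeakSpace ℝ E).symm x) :=
  WeakBilin.eval_continuous (topDualPairing ℝ E).flip F

theorem weak_comp (g : ℝ × ℝ → ℝ) (hg : Continuous g) :
    Continuous fun x : WeakSpace ℝ E =>
      g (px ((toWeakSpace ℝ E).symm x), py ((toWeakSpace ℝ E).symm x)) :=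
  hg.comp ((weak_eval px).prodMk (weak_eval py))

theorem apply_proj (f : StrongDual ℝ E) (v : E) :
    f (proj v) = (f.comp (jh.comp ph)) v - (f.comp jh) (Psi (px v) (py v)) := by
  rw [proj, map_sub jh, map_sub f]
  rfl

theorem weak_continuous_proj : Continuous fun x : WeakSpace ℝ E =>
    toWeakSpace ℝ E (proj ((toWeakSpace ℝ E).symm x)) := by
  apply WeakBilin.continuous_of_continuous_eval
  intro f
  have h3 := (weak_eval (f.comp (jh.comp ph))).sub
    (weak_comp (fun p => (f.comp jh) (Psi p.1 p.2)) (continuous_dual_Psi (f.comp jh)))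
  exact h3.congr fun x => (apply_proj f _).symm

theorem not_continuous_proj : ¬ Continuous proj := by
  intro hc
  have ht : Tendsto (fun n : ℕ => (1 / 2 : ℝ) ^ n) atTop (𝓝 0) :=
    tendsto_pow_atTop_nhds_zero_of_lt_one (by norm_num) (by norm_num)
  have hv : Tendsto (fun n : ℕ => eE.symm ((1, (1 / 2 : ℝ) ^ n, 0) : ℝ × ℝ × H)) atTop
      (𝓝 (eE.symm ((1, 0, 0) : ℝ × ℝ × H))) := by
    apply (eE.symm.continuous.tendsto _).comp
    exact tendsto_const_nhds.prodMk_nhds (ht.prodMk_nhds tendsto_const_nhds)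
  have h1 := (hc.tendsto _).comp hv
  have h2 := (ph.continuous.tendsto _).comp h1
  have h3 : ∀ y : ℝ, ph (proj (eE.symm ((1, y, 0) : ℝ × ℝ × H))) = - Psi 1 y := by
    intro y
    show (0 : H) - Psi 1 y = - Psi 1 y
    simp
  simp only [Function.comp_def, h3] at h2
  have h4 := h2.neg
  simp only [neg_neg] at h4
  have h5 : Psi 1 0 = 0 := by
    ext n; simp [beta]
  rw [h5] at h4
  have h6 := h4.norm
  rw [norm_zero] at h6
  have h7 : ∀ n : ℕ, 1 / 2 ≤ ‖Psi 1 ((1 / 2 : ℝ) ^ n)‖ := by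
    intro n
    have h8 : ‖Psi 1 ((1 / 2 : ℝ) ^ n) n‖ ≤ ‖Psi 1 ((1 / 2 : ℝ) ^ n)‖ :=
      lp.norm_apply_le_norm (by norm_num) _ n
    have h9 : Psi 1 ((1 / 2 : ℝ) ^ n) n = 1 / 2 := by
      rw [Psi_apply]
      unfold beta
      have h10 : (2:ℝ) ^ n * (1 / 2) ^ n = 1 := by rw [← mul_pow]; norm_num
      have h11 : ((2:ℝ) ^ n) ^ 2 * ((1 / 2) ^ n) ^ 2 = 1 := by rw [← mul_pow, h10]; norm_num
      rw [h11, one_pow, mul_one, h10]; norm_num
    rw [h9] at h8
    simpa using h8
  have h8 := ge_of_tendsto' h6 h7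
  norm_num at h8

end Pool.Agent.U195.WCP
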