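import Pool.Agent.U195.WCP.Key

/-!
# The renormed Hilbert space

`E = ℝ × ℝ × ℓ²` with the norm
`max (sup_{n, u ∈ S¹} |⟨z,u⟩| + ε_n |h_n - ⟨z, ∇β_n(u)⟩|, ‖h‖/2)`, `z = (x, y)`.
-/

namespace Pool.Agent.U195.WCP

open scoped ENNReal

/-- the real Hilbert space `ℓ²` -/
abbrev H := lp (fun _ : ℕ => ℝ) 2

theorem one_le_kn (n : ℕ) : (1:ℝ) ≤ 2 ^ n := one_le_pow₀ (by norm_num)

theorem sum_range_beta_sq_le (x y : ℝ) (N : ℕ) :
    ∑ n ∈ Finset.range N, (beta (2 ^ n) x y) ^ 2 ≤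
      4 / 3 * x ^ 2 * (x ^ 2 / (x ^ 2 + (2 ^ 0) ^ 2 * y ^ 2) -
        x ^ 2 / (x ^ 2 + (2 ^ N) ^ 2 * y ^ 2)) := by
  induction N with
  | zero => simp
  | succ N ih =>
    rw [Finset.sum_range_succ]
    have h := beta_sq_le (x := x) (y := y) (one_le_kn N)
    have h2 : (2:ℝ) * 2 ^ N = 2 ^ (N + 1) := by rw [pow_succ]; ring
    rw [h2] at h
    have h3 : 4 / 3 * x ^ 2 * (x ^ 2 / (x ^ 2 + (2 ^ 0) ^ 2 * y ^ 2) -
        x ^ 2 / (x ^ 2 + (2 ^ (N + 1)) ^ 2 * y ^ 2)) =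
        4 / 3 * x ^ 2 * (x ^ 2 / (x ^ 2 + (2 ^ 0) ^ 2 * y ^ 2) -
        x ^ 2 / (x ^ 2 + (2 ^ N) ^ 2 * y ^ 2)) +
        4 / 3 * x ^ 2 * (x ^ 2 / (x ^ 2 + (2 ^ N) ^ 2 * y ^ 2) -
        x ^ 2 / (x ^ 2 + (2 ^ (N + 1)) ^ 2 * y ^ 2)) := by ring
    rw [h3]
    linarith

theorem sum_beta_sq_le (x y : ℝ) (s : Finset ℕ) :
    ∑ n ∈ s, (beta (2 ^ n) x y) ^ 2 ≤ (2 * |x|) ^ 2 := by
  obtain ⟨N, hN⟩ := s.exists_nat_subset_range
  have h1 : ∑ n ∈ s, (beta (2 ^ n) x y) ^ 2 ≤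
      ∑ n ∈ Finset.range N, (beta (2 ^ n) x y) ^ 2 :=
    Finset.sum_le_sum_of_subset_of_nonneg hN fun _ _ _ => sq_nonneg _
  have h2 := sum_range_beta_sq_le x y N
  have h3 : x ^ 2 / (x ^ 2 + (2 ^ 0) ^ 2 * y ^ 2) ≤ 1 := by
    apply div_le_one_of_le₀ _ (by positivity)
    nlinarith [sq_nonneg y]
  have h4 : 0 ≤ x ^ 2 / (x ^ 2 + (2 ^ N) ^ 2 * y ^ 2) := by positivity
  have h5 : 4 / 3 * x ^ 2 * (x ^ 2 / (x ^ 2 + (2 ^ 0) ^ 2 * y ^ 2) -
        x ^ 2 / (x ^ 2 + (2 ^ N) ^ 2 * y ^ 2)) ≤ 4 / 3 * x ^ 2 * 1 := by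
    apply mul_le_mul_of_nonneg_left (by linarith) (by positivity)
  have h6 : (2 * |x|) ^ 2 = 4 * x ^ 2 := by rw [mul_pow, sq_abs]; norm_num
  rw [h6]
  nlinarith [sq_nonneg x]

/-- the map `Ψ : ℝ² → ℓ²`, `Ψ(z) = (β_{2^n}(z))_n` -/
noncomputable def Psi (x y : ℝ) : H :=
  ⟨fun n => beta (2 ^ n) x y, memℓp_gen' (C := (2 * |x|) ^ 2) (by
    intro s
    have := sum_beta_sq_le x y s
    simpa using this)⟩

@[simp] theorem Psi_apply (x y : ℝ) (n : ℕ) : Psi x y n = beta (2 ^ n) x y := rfl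

theorem norm_Psi_le (x y : ℝ) : ‖Psi x y‖ ≤ 2 * |x| := by
  apply lp.norm_le_of_forall_sum_le (by norm_num) (by positivity)
  intro s
  have := sum_beta_sq_le x y s
  simpa using this

/-- index set of the functionals -/
abbrev I := ℕ × {p : ℝ × ℝ // p.1 ^ 2 + p.2 ^ 2 = 1} × Bool

/-- the sign attached to a Boolean -/
def sg (b : Bool) : ℝ := if b then 1 else -1

theorem abs_sg (b : Bool) : |sg b| = 1 := by cases b <;> simp [sg]

/-- the weights -/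
noncomputable def eps (n : ℕ) : ℝ := 1 / (2 * (2 ^ n) ^ 3)

theorem eps_pos (n : ℕ) : 0 < eps n := by unfold eps; positivity

theorem eps_le (n : ℕ) : eps n ≤ 1 := by
  unfold eps
  rw [div_le_one (by positivity)]
  have : (1:ℝ) ≤ (2 ^ n) ^ 3 := one_le_pow₀ (one_le_kn n)
  linarith

theorem eps_mul (n : ℕ) : eps n * (2 * (2 ^ n) ^ 3) = 1 := by
  unfold eps
  field_simp

/-- the functionals defining the norm -/
noncomputable def phi (i : I) (v : ℝ × ℝ × H) : ℝ :=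
  v.1 * i.2.1.1.1 + v.2.1 * i.2.1.1.2 + sg i.2.2 * (eps i.1 *
    (v.2.2 i.1 - (v.1 * dbx (2 ^ i.1) i.2.1.1.1 i.2.1.1.2 +
      v.2.1 * dby (2 ^ i.1) i.2.1.1.1 i.2.1.1.2)))

theorem abs_phi_le (i : I) (v : ℝ × ℝ × H) : |phi i v| ≤ 2 * |v.1| + 2 * |v.2.1| + ‖v.2.2‖ := by
  obtain ⟨n, ⟨⟨a, b⟩, hab⟩, s⟩ := i
  obtain ⟨x, y, h⟩ := v
  simp only [phi]
  simp only at hab
  have hn : |h n| ≤ ‖h‖ := lp.norm_apply_le_norm (by norm_num) h n
  have ha : |a| ≤ 1 := by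
    rw [abs_le_one_iff_mul_self_le_one]; nlinarith [sq_nonneg b]
  have hb : |b| ≤ 1 := by
    rw [abs_le_one_iff_mul_self_le_one]; nlinarith [sq_nonneg a]
  have h1 := abs_dbx_le (one_le_kn n) hab
  have h2 := abs_dby_le (one_le_kn n) hab
  have he := eps_pos n
  have he1 := eps_le n
  have hm := eps_mul n
  have e1 : |x * a| ≤ |x| := by
    rw [abs_mul]; exact mul_le_of_le_one_right (abs_nonneg _) ha
  have e2 : |y * b| ≤ |y| := by
    rw [abs_mul]; exact mul_le_of_le_one_right (abs_nonneg _) hb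
  have e3 : |sg s * (eps n * (h n - (x * dbx (2 ^ n) a b + y * dby (2 ^ n) a b)))| ≤
      ‖h‖ + |x| + |y| := by
    rw [abs_mul, abs_sg, one_mul, abs_mul, abs_of_pos he]
    have f1 : |h n - (x * dbx (2 ^ n) a b + y * dby (2 ^ n) a b)| ≤
        ‖h‖ + (2 * (2 ^ n) ^ 3) * (|x| + |y|) := by
      calc |h n - (x * dbx (2 ^ n) a b + y * dby (2 ^ n) a b)|
          ≤ |h n| + |x * dbx (2 ^ n) a b + y * dby (2 ^ n) a b| := abs_sub _ _
        _ ≤ |h n| + (|x * dbx (2 ^ n) a b| + |y * dby (2 ^ n) a b|) := by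
            gcongr; exact abs_add_le _ _
        _ ≤ ‖h‖ + (2 * (2 ^ n) ^ 3) * (|x| + |y|) := by
            rw [abs_mul, abs_mul]
            have g1 : |x| * |dbx (2 ^ n) a b| ≤ |x| * (2 * (2 ^ n) ^ 3) :=
              mul_le_mul_of_nonneg_left h1 (abs_nonneg _)
            have g2 : |y| * |dby (2 ^ n) a b| ≤ |y| * (2 * (2 ^ n) ^ 3) :=
              mul_le_mul_of_nonneg_left h2 (abs_nonneg _)
            linarith
    calc eps n * |h n - (x * dbx (2 ^ n) a b + y * dby (2 ^ n) a b)|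
        ≤ eps n * (‖h‖ + (2 * (2 ^ n) ^ 3) * (|x| + |y|)) :=
          mul_le_mul_of_nonneg_left f1 he.le
      _ = eps n * ‖h‖ + (eps n * (2 * (2 ^ n) ^ 3)) * (|x| + |y|) := by ring
      _ ≤ 1 * ‖h‖ + 1 * (|x| + |y|) := by
          rw [hm]
          have := mul_le_mul_of_nonneg_right he1 (norm_nonneg h)
          linarith
      _ = ‖h‖ + |x| + |y| := by ring
  calc _ ≤ |x * a + y * b| +
        |sg s * (eps n * (h n - (x * dbx (2 ^ n) a b + y * dby (2 ^ n) a b)))| := abs_add_le _ _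
    _ ≤ (|x * a| + |y * b|) + (‖h‖ + |x| + |y|) := add_le_add (abs_add_le _ _) e3
    _ ≤ 2 * |x| + 2 * |y| + ‖h‖ := by linarith

/-- the ambient space -/
abbrev Y := lp (fun _ : I => ℝ) ∞ × H

/-- the first component of the embedding -/
noncomputable def T1 : (ℝ × ℝ × H) →ₗ[ℝ] lp (fun _ : I => ℝ) ∞ where
  toFun v := ⟨fun i => phi i v, memℓp_infty ⟨2 * |v.1| + 2 * |v.2.1| + ‖v.2.2‖, by
    rintro _ ⟨i, rfl⟩
    exact abs_phi_le i v⟩⟩
  map_add' v w := by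
    ext i
    show phi i (v + w) = phi i v + phi i w
    simp only [phi, Prod.fst_add, Prod.snd_add, lp.coeFn_add, Pi.add_apply]
    ring
  map_smul' c v := by
    ext i
    show phi i (c • v) = c * phi i v
    simp only [phi, Prod.smul_fst, Prod.smul_snd, lp.coeFn_smul, Pi.smul_apply, smul_eq_mul]
    ring

@[simp] theorem T1_apply (v : ℝ × ℝ × H) (i : I) : T1 v i = phi i v := rfl

/-- the embedding -/
noncomputable def T : (ℝ × ℝ × H) →ₗ[ℝ] Y :=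
  T1.prod ((1 / 2 : ℝ) • ((LinearMap.snd ℝ ℝ H).comp (LinearMap.snd ℝ ℝ (ℝ × H))))

theorem norm_T (v : ℝ × ℝ × H) : ‖T v‖ = max ‖T1 v‖ (1 / 2 * ‖v.2.2‖) := by
  simp [T, Prod.norm_def, norm_smul]

theorem le_norm_T1 (v : ℝ × ℝ × H) (n : ℕ) {a b : ℝ} (hab : a ^ 2 + b ^ 2 = 1) :
    |v.1 * a + v.2.1 * b| + eps n * |v.2.2 n - (v.1 * dbx (2 ^ n) a b + v.2.1 * dby (2 ^ n) a b)|
      ≤ ‖T1 v‖ := by
  have h1 : ∀ s, |v.1 * a + v.2.1 * b + sg s * (eps n *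
      (v.2.2 n - (v.1 * dbx (2 ^ n) a b + v.2.1 * dby (2 ^ n) a b)))| ≤ ‖T1 v‖ := by
    intro s
    exact lp.norm_apply_le_norm (by simp) (T1 v) ⟨n, ⟨(a, b), hab⟩, s⟩
  have ht := h1 true
  have hf := h1 false
  simp only [sg, if_true, one_mul, Bool.false_eq_true, if_false, neg_mul] at ht hf
  have he := eps_pos n
  set A := v.1 * a + v.2.1 * b
  set B := v.2.2 n - (v.1 * dbx (2 ^ n) a b + v.2.1 * dby (2 ^ n) a b)
  have hB : eps n * |B| = |eps n * B| := by rw [abs_mul, abs_of_pos he]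
  rw [hB]
  rw [abs_le] at ht hf
  rcases abs_cases A with ⟨h2, -⟩ | ⟨h2, -⟩ <;> rcases abs_cases (eps n * B) with ⟨h3, -⟩ | ⟨h3, -⟩ <;>
    rw [h2, h3] <;> linarith [ht.1, ht.2, hf.1, hf.2]

theorem norm_T1_le {v : ℝ × ℝ × H} {C : ℝ} (hC : 0 ≤ C)
    (h : ∀ (n : ℕ) (a b : ℝ), a ^ 2 + b ^ 2 = 1 →
      |v.1 * a + v.2.1 * b| +
        eps n * |v.2.2 n - (v.1 * dbx (2 ^ n) a b + v.2.1 * dby (2 ^ n) a b)| ≤ C) :
    ‖T1 v‖ ≤ C := by
  apply lp.norm_le_of_forall_le hC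
  rintro ⟨n, ⟨⟨a, b⟩, hab⟩, s⟩
  have h1 := h n a b hab
  have he := eps_pos n
  refine le_trans ?_ h1
  refine (abs_add_le _ _).trans ?_
  rw [abs_mul, abs_sg, one_mul, abs_mul, abs_of_pos he]

theorem sqrt_le_norm_T (v : ℝ × ℝ × H) : √(v.1 ^ 2 + v.2.1 ^ 2) ≤ ‖T v‖ := by
  rw [norm_T]
  refine le_max_of_le_left ?_
  rcases eq_or_lt_of_le (add_nonneg (sq_nonneg v.1) (sq_nonneg v.2.1)) with h0 | hz
  · rw [← h0]; simp
  · set r := √(v.1 ^ 2 + v.2.1 ^ 2) with hr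
    have hr2 : r ^ 2 = v.1 ^ 2 + v.2.1 ^ 2 := Real.sq_sqrt hz.le
    have hr0 : 0 < r := Real.sqrt_pos.2 hz
    have hab : (v.1 / r) ^ 2 + (v.2.1 / r) ^ 2 = 1 := by
      rw [div_pow, div_pow, ← add_div, hr2, div_self hz.ne']
    have h1 := le_norm_T1 v 0 hab
    have h2 : v.1 * (v.1 / r) + v.2.1 * (v.2.1 / r) = r := by
      field_simp
      linarith
    rw [h2, abs_of_pos hr0] at h1
    have h3 := mul_nonneg (eps_pos 0).le (abs_nonneg (v.2.2 0 -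
      (v.1 * dbx (2 ^ 0) (v.1 / r) (v.2.1 / r) + v.2.1 * dby (2 ^ 0) (v.1 / r) (v.2.1 / r))))
    linarith

/-- the norm of a point of the graph of `Ψ` -/
theorem norm_T_graph (x y : ℝ) : ‖T (x, y, Psi x y)‖ = √(x ^ 2 + y ^ 2) := by
  apply le_antisymm _ (sqrt_le_norm_T (x, y, Psi x y))
  rw [norm_T]
  apply max_le
  · apply norm_T1_le (Real.sqrt_nonneg _)
    intro n a b hab
    simp only [Psi_apply]
    have h1 := key (x := x) (y := y) (one_le_kn n) hab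
    have h2 : eps n * |beta (2 ^ n) x y - (x * dbx (2 ^ n) a b + y * dby (2 ^ n) a b)| ≤
        √(x ^ 2 + y ^ 2) - |x * a + y * b| := by
      calc _ ≤ eps n * (2 * (2 ^ n) ^ 3 * (√(x ^ 2 + y ^ 2) - |x * a + y * b|)) :=
            mul_le_mul_of_nonneg_left h1 (eps_pos n).le
        _ = (eps n * (2 * (2 ^ n) ^ 3)) * (√(x ^ 2 + y ^ 2) - |x * a + y * b|) := by ring
        _ = _ := by rw [eps_mul, one_mul]
    linarith
  · have h1 := norm_Psi_le x y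
    have h2 : |x| ≤ √(x ^ 2 + y ^ 2) := Real.abs_le_sqrt (by nlinarith [sq_nonneg y])
    simp only
    linarith

/-- points of minimal norm in a fibre lie on the graph of `Ψ` -/
theorem eq_Psi_of_norm_T_le {x y : ℝ} {h : H} (hn : ‖T (x, y, h)‖ ≤ √(x ^ 2 + y ^ 2)) :
    h = Psi x y := by
  rcases eq_or_lt_of_le (add_nonneg (sq_nonneg x) (sq_nonneg y)) with h0 | hz
  · have hx : x = 0 := by nlinarith [sq_nonneg x, sq_nonneg y]
    have hy : y = 0 := by nlinarith [sq_nonneg x, sq_nonneg y]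
    subst hx; subst hy
    have h1 : ‖h‖ = 0 := by
      have h2 := le_trans (le_max_right _ _) ((norm_T _).symm.le.trans hn)
      simp at h2
      exact le_antisymm (by linarith) (norm_nonneg _)
    rw [norm_eq_zero] at h1
    subst h1
    ext n
    simp [beta]
  · set r := √(x ^ 2 + y ^ 2) with hr
    have hr2 : r ^ 2 = x ^ 2 + y ^ 2 := Real.sq_sqrt hz.le
    have hr0 : 0 < r := Real.sqrt_pos.2 hz
    have hab : (x / r) ^ 2 + (y / r) ^ 2 = 1 := by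
      rw [div_pow, div_pow, ← add_div, hr2, div_self hz.ne']
    have hx : x = r * (x / r) := by field_simp
    have hy : y = r * (y / r) := by field_simp
    ext n
    have h1 := le_norm_T1 (x, y, h) n hab
    have h2 : x * (x / r) + y * (y / r) = r := by
      field_simp
      linarith
    simp only at h1
    rw [h2, abs_of_pos hr0] at h1
    have h3 : ‖T1 (x, y, h)‖ ≤ r := le_trans (le_max_left _ _) ((norm_T _).symm.le.trans hn)
    have h4 : |h n - (x * dbx (2 ^ n) (x / r) (y / r) + y * dby (2 ^ n) (x / r) (y / r))| ≤ 0 := by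
      by_contra hcon
      push Not at hcon
      have := mul_pos (eps_pos n) hcon
      linarith
    have h5 := abs_nonpos_iff.1 h4
    have h6 : x * dbx (2 ^ n) (x / r) (y / r) + y * dby (2 ^ n) (x / r) (y / r) =
        beta (2 ^ n) x y := by
      have e := euler (one_le_kn n) hab
      have b1 := beta_smul (2 ^ n) r (x / r) (y / r)
      rw [← hx, ← hy, ← e] at b1
      rw [b1]
      have hx' : x * dbx (2 ^ n) (x / r) (y / r) = r * (x / r * dbx (2 ^ n) (x / r) (y / r)) := by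
        rw [← mul_assoc, ← hx]
      have hy' : y * dby (2 ^ n) (x / r) (y / r) = r * (y / r * dby (2 ^ n) (x / r) (y / r)) := by
        rw [← mul_assoc, ← hy]
      rw [hx', hy']; ring
    rw [h6] at h5
    simp only [Psi_apply]
    linarith

theorem norm_T_le (v : ℝ × ℝ × H) : ‖T v‖ ≤ 2 * |v.1| + 2 * |v.2.1| + ‖v.2.2‖ := by
  rw [norm_T]
  apply max_le
  · apply lp.norm_le_of_forall_le (by positivity)
    intro i
    exact abs_phi_le i v
  · have := norm_nonneg v.2.2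
    have := abs_nonneg v.1
    have := abs_nonneg v.2.1
    linarith

theorem norm_T_le' (v : ℝ × ℝ × H) : ‖T v‖ ≤ 5 * ‖v‖ := by
  have h1 := norm_T_le v
  have h2 : |v.1| ≤ ‖v‖ := norm_fst_le v
  have h3 : |v.2.1| ≤ ‖v‖ := (norm_fst_le v.2).trans (norm_snd_le v)
  have h4 : ‖v.2.2‖ ≤ ‖v‖ := (norm_snd_le v.2).trans (norm_snd_le v)
  linarith

theorem le_norm_T (v : ℝ × ℝ × H) : ‖v‖ ≤ 2 * ‖T v‖ := by
  have h0 := sqrt_le_norm_T v
  have h1 : |v.1| ≤ √(v.1 ^ 2 + v.2.1 ^ 2) := Real.abs_le_sqrt (by nlinarith [sq_nonneg v.2.1])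
  have h2 : |v.2.1| ≤ √(v.1 ^ 2 + v.2.1 ^ 2) := Real.abs_le_sqrt (by nlinarith [sq_nonneg v.1])
  have h3 : 1 / 2 * ‖v.2.2‖ ≤ ‖T v‖ := by rw [norm_T]; exact le_max_right _ _
  have h4 := norm_nonneg (T v)
  refine max_le ?_ (max_le ?_ ?_)
  · show |v.1| ≤ _
    linarith
  · show |v.2.1| ≤ _
    linarith
  · linarith

theorem T_injective : Function.Injective T := by
  rw [← LinearMap.ker_eq_bot, LinearMap.ker_eq_bot']
  intro v hv
  have := le_norm_T v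
  rw [hv, norm_zero, mul_zero] at this
  exact norm_le_zero_iff.1 this

/-- The space of the example: `ℝ × ℝ × ℓ²` with the norm pulled back along `T`. -/
def E : Type := ℝ × ℝ × H

noncomputable instance : AddCommGroup E := inferInstanceAs (AddCommGroup (ℝ × ℝ × H))
noncomputable instance : Module ℝ E := inferInstanceAs (Module ℝ (ℝ × ℝ × H))

/-- `T` on `E` -/
noncomputable def TE : E →ₗ[ℝ] Y := T

noncomputable instance : NormedAddCommGroup E :=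
  NormedAddCommGroup.induced E Y TE T_injective

noncomputable instance : NormedSpace ℝ E := NormedSpace.induced ℝ E Y TE

theorem norm_E (v : E) : ‖v‖ = ‖T v‖ := rfl

end Pool.Agent.U195.WCP
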